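import Pool.Agent.helper32.CK.Defs

/-!
# ck:W — weak operator limits along an ultrafilter
-/

namespace Pool.Agent.helper32.CK

open scoped InnerProductSpace ComplexOrder
open Filter Topology

universe u v w

theorem exists_wlim {J : Type w} (𝒰 : Ultrafilter J) {H : Type u} {H' : Type v}
    [NormedAddCommGroup H] [InnerProductSpace ℂ H] [CompleteSpace H] [NormedAddCommGroup H']
    [InnerProductSpace ℂ H'] [CompleteSpace H'] (T : J → (H →L[ℂ] H')) (C : ℝ)
    (hT : ∀ j, ‖T j‖ ≤ C) :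
    ∃ L : H →L[ℂ] H', ‖L‖ ≤ C ∧ (∀ x y, Tendsto (fun j => ⟪y, T j x⟫_ℂ) 𝒰 (𝓝 ⟪y, L x⟫_ℂ)) ∧
      ∀ x w r, (∀ᶠ j in (𝒰 : Filter J), ‖T j x - w‖ ≤ r) → ‖L x - w‖ ≤ r := by
  have hC : 0 ≤ C := by
    obtain ⟨j⟩ := (𝒰 : Filter J).nonempty_of_neBot
    exact (norm_nonneg _).trans (hT j)
  have hex : ∀ (x : H) (y : H'), ∃ c : ℂ, ‖c‖ ≤ C * ‖x‖ * ‖y‖ ∧
      Tendsto (fun j => ⟪T j x, y⟫_ℂ) 𝒰 (𝓝 c) := by
    intro x y
    have hb : ∀ j, ‖⟪T j x, y⟫_ℂ‖ ≤ C * ‖x‖ * ‖y‖ := by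
      intro j
      refine (norm_inner_le_norm _ _).trans ?_
      refine mul_le_mul_of_nonneg_right ?_ (norm_nonneg _)
      exact ((T j).le_opNorm x).trans (mul_le_mul_of_nonneg_right (hT j) (norm_nonneg _))
    have hcomp : IsCompact (Metric.closedBall (0 : ℂ) (C * ‖x‖ * ‖y‖)) :=
      isCompact_closedBall _ _
    obtain ⟨c, hc, hlim⟩ := hcomp.ultrafilter_le_nhds (𝒰.map fun j => ⟪T j x, y⟫_ℂ) (by
      rw [Filter.le_principal_iff]
      refine Filter.mem_map.2 (Filter.univ_mem' ?_)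
      intro j
      show ⟪T j x, y⟫_ℂ ∈ Metric.closedBall (0 : ℂ) (C * ‖x‖ * ‖y‖)
      rw [mem_closedBall_zero_iff]
      exact hb j)
    exact ⟨c, by rwa [mem_closedBall_zero_iff] at hc, hlim⟩
  choose c hc hlim using hex
  have huniq : ∀ {f : J → ℂ} {a b : ℂ}, Tendsto f 𝒰 (𝓝 a) → Tendsto f 𝒰 (𝓝 b) → a = b :=
    fun h h' => tendsto_nhds_unique h h'
  -- the functional
  let φ : H → (H' →L[ℂ] ℂ) := fun x => LinearMap.mkContinuous
    { toFun := c x
      map_add' := by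
        intro y z
        refine huniq (hlim x (y + z)) ?_
        have := (hlim x y).add (hlim x z)
        refine this.congr fun j => ?_
        rw [inner_add_right]
      map_smul' := by
        intro a y
        refine huniq (hlim x (a • y)) ?_
        have := (hlim x y).const_mul a
        refine this.congr fun j => ?_
        rw [inner_smul_right] } (C * ‖x‖) (hc x)
  have hφ : ∀ x y, φ x y = c x y := fun _ _ => rfl
  have hφn : ∀ x, ‖φ x‖ ≤ C * ‖x‖ := fun x =>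
    LinearMap.mkContinuous_norm_le _ (mul_nonneg hC (norm_nonneg _)) _
  let L0 : H → H' := fun x => (InnerProductSpace.toDual ℂ H').symm (φ x)
  have hL0 : ∀ x y, ⟪L0 x, y⟫_ℂ = c x y := by
    intro x y
    show ⟪(InnerProductSpace.toDual ℂ H').symm (φ x), y⟫_ℂ = c x y
    rw [InnerProductSpace.toDual_symm_apply, hφ]
  have hL0n : ∀ x, ‖L0 x‖ ≤ C * ‖x‖ := by
    intro x
    show ‖(InnerProductSpace.toDual ℂ H').symm (φ x)‖ ≤ _
    rw [LinearIsometryEquiv.norm_map]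
    exact hφn x
  let L : H →L[ℂ] H' := LinearMap.mkContinuous
    { toFun := L0
      map_add' := by
        intro x z
        refine ext_inner_right ℂ fun y => ?_
        rw [inner_add_left, hL0, hL0, hL0]
        refine huniq (hlim (x + z) y) ?_
        refine ((hlim x y).add (hlim z y)).congr fun j => ?_
        rw [map_add, inner_add_left]
      map_smul' := by
        intro a x
        refine ext_inner_right ℂ fun y => ?_
        rw [RingHom.id_apply, inner_smul_left, hL0, hL0]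
        refine huniq (hlim (a • x) y) ?_
        refine ((hlim x y).const_mul (starRingEnd ℂ a)).congr fun j => ?_
        rw [map_smul, inner_smul_left] } C hL0n
  have hL : ∀ x, L x = L0 x := fun _ => rfl
  have hconv : ∀ x y, Tendsto (fun j => ⟪y, T j x⟫_ℂ) 𝒰 (𝓝 ⟪y, L x⟫_ℂ) := by
    intro x y
    have h1 := hlim x y
    rw [← hL0 x y, ← hL x] at h1
    have h2 := (Complex.continuous_conj.tendsto _).comp h1
    have e1 : (starRingEnd ℂ) ⟪L x, y⟫_ℂ = ⟪y, L x⟫_ℂ := inner_conj_symm y (L x)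
    rw [e1] at h2
    refine h2.congr fun j => ?_
    exact inner_conj_symm y (T j x)
  refine ⟨L, LinearMap.mkContinuous_norm_le _ hC _, hconv, ?_⟩
  intro x w r hr
  set z := L x - w with hz
  have hr0 : 0 ≤ r := by
    obtain ⟨j, hj⟩ := hr.exists
    exact (norm_nonneg _).trans hj
  have h1 : Tendsto (fun j => ⟪z, T j x - w⟫_ℂ) 𝒰 (𝓝 ⟪z, z⟫_ℂ) := by
    have h2 := (hconv x z).sub_const ⟪z, w⟫_ℂ
    have e : ⟪z, L x⟫_ℂ - ⟪z, w⟫_ℂ = ⟪z, z⟫_ℂ := by
      rw [← inner_sub_right, ← hz]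
    rw [e] at h2
    refine h2.congr fun j => ?_
    rw [inner_sub_right]
  have h3 : ‖⟪z, z⟫_ℂ‖ ≤ ‖z‖ * r := by
    refine le_of_tendsto h1.norm ?_
    filter_upwards [hr] with j hj
    exact (norm_inner_le_norm _ _).trans (mul_le_mul_of_nonneg_left hj (norm_nonneg _))
  rw [inner_self_eq_norm_sq_to_K, norm_pow] at h3
  have h4 : ‖z‖ * ‖z‖ ≤ ‖z‖ * r := by
    have : ‖((‖z‖ : ℝ) : ℂ)‖ = ‖z‖ := by
      rw [Complex.norm_real, norm_norm]
    have h5 : ‖(((‖z‖ : ℝ) : ℂ))‖ ^ 2 ≤ ‖z‖ * r := h3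
    rw [this] at h5
    rw [← sq]
    exact h5
  by_cases h0 : ‖z‖ = 0
  · rw [h0]; exact hr0
  · exact le_of_mul_le_mul_left h4 (lt_of_le_of_ne (norm_nonneg _) (Ne.symm h0))

end Pool.Agent.helper32.CK
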