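import Pool.Agent.helper49.CK.I1a
import Pool.Agent.helper17.CK.G
import Pool.Agent.helper17.CK.F3

/-!
# ck:I1 — approximate unitaries on finite dimensional subspaces
-/

namespace Pool.Agent.helper32.CK

open scoped InnerProductSpace ComplexOrder
open Filter Topology

universe u v w

section dg

variable {I : Type w} [Fintype I] [DecidableEq I]

theorem I1_dg_apply (d : I → ℂ) (x : En I) (i : I) : dg d x i = d i * x i := by
  show (Matrix.mulVec (Matrix.diagonal d) (WithLp.ofLp x)) i = _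
  rw [Matrix.mulVec_diagonal]

theorem I1_dg_mul (d d' : I → ℂ) : dg d * dg d' = dg (fun i => d i * d' i) := by
  unfold dg
  rw [← map_mul, Matrix.diagonal_mul_diagonal]

theorem I1_dg_norm (d : I → ℂ) (h : ∀ i, ‖d i‖ ≤ 1) : ‖dg d‖ ≤ 1 := by
  refine ContinuousLinearMap.opNorm_le_bound _ zero_le_one fun x => ?_
  rw [one_mul, EuclideanSpace.norm_eq, EuclideanSpace.norm_eq]
  refine Real.sqrt_le_sqrt (Finset.sum_le_sum fun i _ => ?_)
  rw [I1_dg_apply, norm_mul]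
  have := h i
  gcongr
  calc ‖d i‖ * ‖x i‖ ≤ 1 * ‖x i‖ := by gcongr
    _ = _ := one_mul _

/-- sign operators -/
noncomputable def I1_D (s : I → ℤˣ) : En I →L[ℂ] En I := dg (fun i => ((s i : ℤ) : ℂ))

theorem I1_sgn_norm (u : ℤˣ) : ‖((u : ℤ) : ℂ)‖ = 1 := by
  rcases Int.units_eq_one_or u with h | h <;> simp [h]

theorem I1_D_norm (s : I → ℤˣ) : ‖I1_D s‖ ≤ 1 := I1_dg_norm _ fun i => (I1_sgn_norm (s i)).le

theorem I1_D_mul (s t : I → ℤˣ) : I1_D s * I1_D t = I1_D (s * t) := by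
  unfold I1_D
  rw [I1_dg_mul]
  congr 1
  funext i
  push_cast [Pi.mul_apply]
  rfl

theorem I1_D_one : I1_D (1 : I → ℤˣ) = 1 := by
  ext x i
  unfold I1_D
  rw [I1_dg_apply]
  simp

theorem I1_D_single (s : I → ℤˣ) (i : I) :
    I1_D s (EuclideanSpace.single i 1) = ((s i : ℤ) : ℂ) • EuclideanSpace.single i (1 : ℂ) := by
  ext j
  unfold I1_D
  rw [I1_dg_apply]
  by_cases h : j = i
  · subst h; simp
  · simp [h]

theorem I1_D_neg (x : En I) : I1_D (-1 : I → ℤˣ) x = -x := by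
  ext i
  unfold I1_D
  rw [I1_dg_apply]
  simp

end dg

/-- data of a representation of the group of signs near `V` -/
structure I1_Rep {K : Type u} {H : Type v} [NormedAddCommGroup K]
    [InnerProductSpace ℂ K] [CompleteSpace K] [NormedAddCommGroup H] [InnerProductSpace ℂ H]
    [CompleteSpace H] (τ : ℝ) (V : K → H) {I : Type w} [Fintype I] [DecidableEq I]
    (ι : En I →ₗᵢ[ℂ] K) (R : (I → ℤˣ) → H →L[ℂ] H) : Prop where
  ha : ∀ x y, ‖x‖ ≤ 1 → ‖y‖ ≤ 1 → ‖⟪V x, V y⟫_ℂ - ⟪x, y⟫_ℂ‖ ≤ τ ^ 2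
  hb : ∀ y, ‖y‖ ≤ 1 → ∃ x, ‖x‖ ≤ 1 ∧ ‖V x - y‖ ≤ τ
  hτ0 : 0 ≤ τ
  hτ : τ ≤ 1 / 10 ^ 11
  mul : ∀ s t, R (s * t) = R s * R t
  one : R 1 = 1
  norm : ∀ s u, ‖R s u‖ = ‖u‖
  sym : ∀ s u v, ⟪R s u, v⟫_ℂ = ⟪u, R s v⟫_ℂ
  near : ∀ s x, ‖x‖ ≤ 1 → ‖R s (V x) - V (I1_ext ι (I1_D s) x)‖ ≤ 8002 * τ

section rep

variable {K : Type u} {H : Type v} [NormedAddCommGroup K]
    [InnerProductSpace ℂ K] [CompleteSpace K] [NormedAddCommGroup H] [InnerProductSpace ℂ H]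
    [CompleteSpace H] {τ : ℝ} {V : K → H} {I : Type w} [Fintype I] [DecidableEq I]
    {ι : En I →ₗᵢ[ℂ] K} {R : (I → ℤˣ) → H →L[ℂ] H}

theorem I1_Rep.sq (h : I1_Rep τ V ι R) (s : I → ℤˣ) (u : H) : R s (R s u) = u := by
  have h1 := h.mul s s
  have h2 : s * s = 1 := by
    funext i
    exact Int.units_mul_self (s i)
  rw [h2, h.one] at h1
  have := congrArg (fun A : H →L[ℂ] H => A u) h1
  exact this.symm

theorem I1_Rep.comm (h : I1_Rep τ V ι R) (s t : I → ℤˣ) (u : H) :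
    R s (R t u) = R t (R s u) := by
  have h1 := h.mul s t
  have h2 := h.mul t s
  rw [mul_comm] at h1
  rw [h1] at h2
  exact congrArg (fun A : H →L[ℂ] H => A u) h2

/-- the sign change at `i` -/
def I1_sg (i : I) : I → ℤˣ := Pi.mulSingle i (-1)

theorem I1_sg_self (i : I) : I1_sg i i = -1 := by simp [I1_sg]

theorem I1_sg_ne {i j : I} (h : j ≠ i) : I1_sg i j = 1 := by simp [I1_sg, h]

theorem I1_prod_sg : ∏ i : I, I1_sg i = -1 := by
  unfold I1_sg
  rw [Finset.univ_prod_mulSingle (fun _ : I => (-1 : ℤˣ))]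
  rfl

theorem I1_single_norm (i : I) : ‖ι (EuclideanSpace.single i (1 : ℂ))‖ = 1 := by
  rw [ι.norm_map]; simp

/-- existence of the vectors `f i` -/
theorem I1_Rep.exists_f (h : I1_Rep τ V ι R) (i : I) : ∃ f : H, ‖f‖ = 1 ∧
    R (I1_sg i) f = -f ∧ ‖f - V (ι (EuclideanSpace.single i 1))‖ ≤ 8100 * τ := by
  set e : K := ι (EuclideanSpace.single i 1) with he
  have he1 : ‖e‖ = 1 := I1_single_norm i
  set g : H := (1 / 2 : ℂ) • (V e - R (I1_sg i) (V e)) with hg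
  have hτ0 := h.hτ0
  have hτ := h.hτ
  have h1 : ‖R (I1_sg i) (V e) + V e‖ ≤ 8004 * τ := by
    have h2 := h.near (I1_sg i) e he1.le
    have h3 : I1_ext ι (I1_D (I1_sg i)) e = -e := by
      rw [he, I1_ext_ι, I1_D_single, I1_sg_self]
      simp
    rw [h3] at h2
    have h4 := I1_neg h.ha hτ0 e he1.le
    have e1 : R (I1_sg i) (V e) + V e = (R (I1_sg i) (V e) - V (-e)) + (V (-e) + V e) := by abel
    rw [e1]
    refine (norm_add_le _ _).trans ?_
    linarith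
  have hgV : ‖g - V e‖ ≤ 4002 * τ := by
    have e1 : g - V e = -(1 / 2 : ℂ) • (R (I1_sg i) (V e) + V e) := by
      rw [hg]; module
    rw [e1, norm_smul]
    have : ‖-(1 / 2 : ℂ)‖ = 1 / 2 := by simp
    rw [this]
    linarith
  have hRg : R (I1_sg i) g = -g := by
    rw [hg, map_smul, map_sub, h.sq]
    module
  obtain ⟨hV1, hV2⟩ := I1_norm h.ha hτ0 e he1.le
  rw [he1] at hV1 hV2
  have hg1 : |‖g‖ - 1| ≤ 4003 * τ := by
    have h2 := abs_norm_sub_norm_le g (V e)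
    rw [abs_le] at h2 ⊢
    constructor <;> linarith [h2.1, h2.2]
  have hgpos : 0 < ‖g‖ := by
    have := (abs_le.1 hg1).1
    have h5 : (4003 : ℝ) * (1 / 10 ^ 11) ≤ 1 / 2 := by norm_num
    nlinarith
  refine ⟨((‖g‖ : ℝ) : ℂ)⁻¹ • g, ?_, ?_, ?_⟩
  · rw [norm_smul, norm_inv, Complex.norm_real, norm_norm, inv_mul_cancel₀ hgpos.ne']
  · rw [map_smul, hRg, smul_neg]
  · have h2 : ‖((‖g‖ : ℝ) : ℂ)⁻¹ • g - g‖ ≤ 4003 * τ := by
      have e1 : ((‖g‖ : ℝ) : ℂ)⁻¹ • g - g = (((‖g‖⁻¹ - 1 : ℝ)) : ℂ) • g := by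
        push_cast
        module
      rw [e1, norm_smul, Complex.norm_real, Real.norm_eq_abs]
      have e2 : |‖g‖⁻¹ - 1| * ‖g‖ = |‖g‖ - 1| := by
        rw [← abs_of_pos hgpos, ← abs_mul, abs_of_pos hgpos, sub_mul,
          inv_mul_cancel₀ hgpos.ne', one_mul, abs_sub_comm]
      rw [e2]
      exact hg1
    have h3 := norm_sub_le_norm_sub_add_norm_sub (((‖g‖ : ℝ) : ℂ)⁻¹ • g) g (V e)
    linarith

/-- the eigenspace is one dimensional -/
theorem I1_Rep.range_one (h : I1_Rep τ V ι R) (i : I) {f : H} (hf : ‖f‖ = 1)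
    (hfV : ‖f - V (ι (EuclideanSpace.single i 1))‖ ≤ 8100 * τ) {v : H}
    (hRv : R (I1_sg i) v = -v) (hv : ‖v‖ = 1) (hfv : ⟪f, v⟫_ℂ = 0) : False := by
  set e : K := ι (EuclideanSpace.single i 1) with he
  have he1 : ‖e‖ = 1 := I1_single_norm i
  have hτ0 := h.hτ0
  have hτ := h.hτ
  obtain ⟨x, hx, hxv⟩ := h.hb v hv.le
  set x' := I1_ext ι (I1_D (I1_sg i)) x with hx'
  have hx'1 : ‖x'‖ ≤ 1 := by
    calc ‖x'‖ ≤ ‖I1_ext ι (I1_D (I1_sg i))‖ * ‖x‖ := (I1_ext ι (I1_D (I1_sg i))).le_opNorm x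
      _ ≤ 1 * 1 := by
        gcongr
        exact I1_ext_norm ι _ (I1_D_norm _)
      _ = 1 := one_mul 1
  have h1 : ‖V x' - V (-x)‖ ≤ 8006 * τ := by
    have h2 := h.near (I1_sg i) x hx
    have h3 : ‖R (I1_sg i) (V x) - R (I1_sg i) v‖ ≤ τ := by
      rw [← map_sub, h.norm]
      exact hxv
    have h4 := I1_neg h.ha hτ0 x hx
    rw [hRv] at h3
    have e1 : V x' - V (-x) = -(R (I1_sg i) (V x) - V x') + (R (I1_sg i) (V x) - -v) +
        (V x - v) - (V (-x) + V x) := by abel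
    rw [e1]
    refine (norm_sub_le _ _).trans ?_
    have h5 := norm_add₃_le (a := -(R (I1_sg i) (V x) - V x')) (b := R (I1_sg i) (V x) - -v)
      (c := V x - v)
    rw [norm_neg] at h5
    linarith
  have h2 : ‖x' - -x‖ ≤ 8008 * τ := by
    have := (I1_dist h.ha hτ0 x' (-x) hx'1 (by rwa [norm_neg])).2
    linarith
  -- the coordinate
  set c : ℂ := (I1_co ι x) i with hc
  have hx'e : x' - -x = (2 : ℂ) • (x - c • e) := by
    have e1 : I1_D (I1_sg i) (I1_co ι x) = I1_co ι x - (2 * c) • EuclideanSpace.single i (1 : ℂ) := by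
      ext j
      unfold I1_D
      rw [I1_dg_apply]
      by_cases hj : j = i
      · subst hj
        rw [I1_sg_self]
        simp [hc]
        ring
      · rw [I1_sg_ne hj]
        simp [hj]
    rw [hx', I1_ext_apply, e1, map_sub, map_smul, ← he]
    module
  have h3 : ‖x - c • e‖ ≤ 4004 * τ := by
    rw [hx'e, norm_smul] at h2
    have : ‖(2 : ℂ)‖ = 2 := by simp
    rw [this] at h2
    linarith
  have hc1 : ‖c‖ ≤ 1 := by
    calc ‖c‖ ≤ ‖I1_co ι x‖ := by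
          rw [hc]
          exact PiLp.norm_apply_le (I1_co ι x) i
      _ ≤ ‖x‖ := I1_co_norm ι x
      _ ≤ 1 := hx
  have hce : ‖c • e‖ ≤ 1 := by
    rw [norm_smul, he1, mul_one]; exact hc1
  have h4 : ‖V x - V (c • e)‖ ≤ 4006 * τ := by
    have := (I1_dist h.ha hτ0 x (c • e) hx hce).1
    linarith
  have h5 := I1_smul h.ha hτ0 e c he1.le hc1
  have h6 : ‖c • V e - c • f‖ ≤ 8100 * τ := by
    rw [← smul_sub, norm_smul, norm_sub_rev]
    calc ‖c‖ * ‖f - V e‖ ≤ 1 * (8100 * τ) := by gcongr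
      _ = _ := one_mul _
  have h7 : ‖v - c • f‖ ≤ 12109 * τ := by
    have e1 : v - c • f = -(V x - v) + (V x - V (c • e)) + (V (c • e) - c • V e) +
        (c • V e - c • f) := by abel
    rw [e1]
    refine (norm_add_le _ _).trans ?_
    have h8 := norm_add₃_le (a := -(V x - v)) (b := V x - V (c • e)) (c := V (c • e) - c • V e)
    rw [norm_neg] at h8
    linarith
  have h8 : ‖v - c • f‖ ^ 2 = 1 + ‖c • f‖ ^ 2 := by
    rw [@norm_sub_sq ℂ, inner_smul_right, ← inner_conj_symm, hfv]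
    simp [hv]
  have h9 : (12109 : ℝ) * τ ≤ 1 / 2 := by
    calc (12109 : ℝ) * τ ≤ 12109 * (1 / 10 ^ 11) := by gcongr
      _ ≤ 1 / 2 := by norm_num
  nlinarith [sq_nonneg ‖c • f‖, norm_nonneg (v - c • f)]

theorem I1_Rep.range_eq (h : I1_Rep τ V ι R) (i : I) {f : H} (hf : ‖f‖ = 1)
    (hRf : R (I1_sg i) f = -f)
    (hfV : ‖f - V (ι (EuclideanSpace.single i 1))‖ ≤ 8100 * τ) {v : H}
    (hRv : R (I1_sg i) v = -v) : v = ⟪f, v⟫_ℂ • f := by
  by_contra hne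
  set u := v - ⟪f, v⟫_ℂ • f with hu
  have hu0 : u ≠ 0 := sub_ne_zero.2 hne
  have hn : (0 : ℝ) < ‖u‖ := norm_pos_iff.2 hu0
  have hRu : R (I1_sg i) u = -u := by
    rw [hu, map_sub, map_smul, hRv, hRf]; module
  have hfu : ⟪f, u⟫_ℂ = 0 := by
    rw [hu, inner_sub_right, inner_smul_right, I1_inner_self, hf]
    simp
  refine h.range_one i hf hfV (v := ((‖u‖ : ℝ) : ℂ)⁻¹ • u) ?_ ?_ ?_
  · rw [map_smul, hRu, smul_neg]
  · rw [norm_smul, norm_inv, Complex.norm_real, norm_norm, inv_mul_cancel₀ hn.ne']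
  · rw [inner_smul_right, hfu, mul_zero]

theorem I1_Rep.eig (h : I1_Rep τ V ι R) (j : I) {f : H} (hf : ‖f‖ = 1)
    (hRf : R (I1_sg j) f = -f)
    (hfV : ‖f - V (ι (EuclideanSpace.single j 1))‖ ≤ 8100 * τ) (s : I → ℤˣ) :
    R s f = ((s j : ℤ) : ℂ) • f := by
  set e : K := ι (EuclideanSpace.single j 1) with he
  have he1 : ‖e‖ = 1 := I1_single_norm j
  have hτ0 := h.hτ0
  have hτ := h.hτ
  have hff : ⟪f, f⟫_ℂ = 1 := by rw [I1_inner_self, hf]; simp
  have h1 : R (I1_sg j) (R s f) = -(R s f) := by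
    rw [h.comm, hRf, map_neg]
  set χ : ℂ := ⟪f, R s f⟫_ℂ with hχ
  have h2 : R s f = χ • f := h.range_eq j hf hRf hfV h1
  have h3 : χ * χ = 1 := by
    have h4 := h.sq s f
    rw [h2, map_smul, h2, smul_smul] at h4
    have h5 := congrArg (fun w => ⟪f, w⟫_ℂ) h4
    simp only [inner_smul_right, hff, mul_one] at h5
    exact h5
  have h4 : ‖R s f - ((s j : ℤ) : ℂ) • f‖ ≤ 24204 * τ := by
    have h5 := h.near s e he1.le
    have h6 : I1_ext ι (I1_D s) e = ((s j : ℤ) : ℂ) • e := by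
      rw [he, I1_ext_ι, I1_D_single, map_smul]
    rw [h6] at h5
    have h7 := I1_smul h.ha hτ0 e ((s j : ℤ) : ℂ) he1.le (I1_sgn_norm _).le
    have h8 : ‖R s f - R s (V e)‖ ≤ 8100 * τ := by
      rw [← map_sub, h.norm]; exact hfV
    have h9 : ‖((s j : ℤ) : ℂ) • V e - ((s j : ℤ) : ℂ) • f‖ ≤ 8100 * τ := by
      rw [← smul_sub, norm_smul, I1_sgn_norm, one_mul, norm_sub_rev]; exact hfV
    have e1 : R s f - ((s j : ℤ) : ℂ) • f = (R s f - R s (V e)) +
        (R s (V e) - V (((s j : ℤ) : ℂ) • e)) +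
        (V (((s j : ℤ) : ℂ) • e) - ((s j : ℤ) : ℂ) • V e) +
        (((s j : ℤ) : ℂ) • V e - ((s j : ℤ) : ℂ) • f) := by abel
    rw [e1]
    refine (norm_add_le _ _).trans ?_
    have h10 := norm_add₃_le (a := R s f - R s (V e))
      (b := R s (V e) - V (((s j : ℤ) : ℂ) • e))
      (c := V (((s j : ℤ) : ℂ) • e) - ((s j : ℤ) : ℂ) • V e)
    linarith
  have h5 : ‖χ - ((s j : ℤ) : ℂ)‖ ≤ 24204 * τ := by
    rw [h2, ← sub_smul, norm_smul, hf, mul_one] at h4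
    exact h4
  have h6 : (24204 : ℝ) * τ ≤ 1 / 2 := by
    calc (24204 : ℝ) * τ ≤ 24204 * (1 / 10 ^ 11) := by gcongr
      _ ≤ 1 / 2 := by norm_num
  have h7 : χ = 1 ∨ χ = -1 := mul_self_eq_one_iff.1 h3
  rw [h2]
  congr 1
  rcases Int.units_eq_one_or (s j) with hs | hs
  · rcases h7 with h7 | h7
    · rw [h7, hs]; simp
    · exfalso
      rw [h7, hs] at h5
      have : ‖(-1 : ℂ) - (((1 : ℤˣ) : ℤ) : ℂ)‖ = 2 := by
        norm_num
      rw [this] at h5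
      linarith
  · rcases h7 with h7 | h7
    · exfalso
      rw [h7, hs] at h5
      have : ‖(1 : ℂ) - (((-1 : ℤˣ) : ℤ) : ℂ)‖ = 2 := by
        norm_num
      rw [this] at h5
      linarith
    · rw [h7, hs]; simp

/-- the isometry given by the eigenvectors -/
theorem I1_Rep.exists_U (h : I1_Rep τ V ι R) : ∃ U : En I →ₗᵢ[ℂ] H,
    (∀ i, ‖U (EuclideanSpace.single i 1) - V (ι (EuclideanSpace.single i 1))‖ ≤ 8100 * τ) ∧
    (∀ s x, R s (U x) = U (I1_D s x)) ∧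
    ∀ w, (∀ x, ⟪U x, w⟫_ℂ = 0) → R (-1) w = w := by
  choose f hf hRf hfV using fun i => h.exists_f i
  have heig : ∀ j (s : I → ℤˣ), R s (f j) = ((s j : ℤ) : ℂ) • f j := fun j s =>
    h.eig j (hf j) (hRf j) (hfV j) s
  have horth : Orthonormal ℂ f := by
    refine ⟨hf, ?_⟩
    intro i j hij
    have h1 : R (I1_sg i) (f j) = f j := by
      rw [heig, I1_sg_ne hij.symm]; simp
    have h2 := h.sym (I1_sg i) (f i) (f j)
    rw [h1, hRf, inner_neg_left] at h2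
    have h3 : (2 : ℂ) * ⟪f i, f j⟫_ℂ = 0 := by
      linear_combination -h2
    rcases mul_eq_zero.1 h3 with h4 | h4
    · norm_num at h4
    · exact h4
  let b := EuclideanSpace.basisFun I ℂ
  let L : En I →ₗ[ℂ] H := b.toBasis.constr ℂ f
  have hL : ∀ i, L (EuclideanSpace.single i 1) = f i := by
    intro i
    have h1 : b.toBasis i = EuclideanSpace.single i (1 : ℂ) := by
      rw [OrthonormalBasis.coe_toBasis]
      exact EuclideanSpace.basisFun_apply I ℂ i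
    rw [← h1]
    exact b.toBasis.constr_basis ℂ f i
  have hLf : Orthonormal ℂ (L ∘ b.toBasis) := by
    have : L ∘ b.toBasis = f := by
      funext i
      exact b.toBasis.constr_basis ℂ f i
    rw [this]
    exact horth
  have hbo : Orthonormal ℂ b.toBasis := by
    rw [OrthonormalBasis.coe_toBasis]
    exact b.orthonormal
  let U : En I →ₗᵢ[ℂ] H := L.isometryOfOrthonormal hbo hLf
  have hU : ∀ x, U x = L x := fun _ => rfl
  have hUf : ∀ i, U (EuclideanSpace.single i 1) = f i := fun i => by rw [hU, hL]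
  refine ⟨U, ?_, ?_, ?_⟩
  · intro i
    rw [hUf]
    exact hfV i
  · intro s x
    have h1 : ((R s : H →ₗ[ℂ] H) ∘ₗ U.toLinearMap) =
        (U.toLinearMap ∘ₗ (I1_D s : En I →ₗ[ℂ] En I)) := by
      refine b.toBasis.ext fun i => ?_
      have h2 : b.toBasis i = EuclideanSpace.single i (1 : ℂ) := by
        rw [OrthonormalBasis.coe_toBasis]
        exact EuclideanSpace.basisFun_apply I ℂ i
      rw [h2]
      show R s (U (EuclideanSpace.single i 1)) = U (I1_D s (EuclideanSpace.single i 1))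
      rw [I1_D_single, map_smul, hUf, heig]
    exact congrArg (fun A : En I →ₗ[ℂ] H => A x) h1
  · intro w hw
    have hfw : ∀ i, ⟪f i, w⟫_ℂ = 0 := fun i => by rw [← hUf]; exact hw _
    have h1 : ∀ i, R (I1_sg i) w = w := by
      intro i
      have h2 : R (I1_sg i) (w - R (I1_sg i) w) = -(w - R (I1_sg i) w) := by
        rw [map_sub, h.sq]; abel
      have h3 := h.range_eq i (hf i) (hRf i) (hfV i) h2
      have h4 : ⟪f i, w - R (I1_sg i) w⟫_ℂ = 0 := by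
        rw [inner_sub_right, ← h.sym, hRf, inner_neg_left, hfw]
        simp
      rw [h4, zero_smul] at h3
      exact (sub_eq_zero.1 h3).symm
    have h2 : ∀ t : Finset I, R (∏ i ∈ t, I1_sg i) w = w := by
      intro t
      induction t using Finset.induction_on with
      | empty => rw [Finset.prod_empty, h.one]; rfl
      | insert i t hi ih =>
        rw [Finset.prod_insert hi, h.mul]
        show R (I1_sg i) (R (∏ i ∈ t, I1_sg i) w) = w
        rw [ih, h1]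
    have h3 := h2 Finset.univ
    rwa [I1_prod_sg] at h3

/-- the core hypotheses -/
theorem I1_Rep.core_hyp (h : I1_Rep τ V ι R) {U : En I →ₗᵢ[ℂ] H}
    (h1 : ∀ i, ‖U (EuclideanSpace.single i 1) - V (ι (EuclideanSpace.single i 1))‖ ≤ 8100 * τ)
    (h2 : ∀ s x, R s (U x) = U (I1_D s x))
    (h3 : ∀ w, (∀ x, ⟪U x, w⟫_ℂ = 0) → R (-1) w = w)
    (Φ : (K →L[ℂ] K) → (H →L[ℂ] H)) (hΦ : ∀ T, ‖T‖ ≤ 1 → ‖Φ T‖ ≤ 2)
    (hΦV : ∀ T, ‖T‖ ≤ 1 → ∀ x, ‖x‖ ≤ 1 → ‖Φ T (V x) - V (T x)‖ ≤ τ) :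
    Core (8100 * τ) (fun x => I1_co U (V (ι x)))
      (fun M => I1_co U ∘L Φ (I1_ext ι M) ∘L U.toContinuousLinearMap) ∧
    ∀ x, ‖x‖ ≤ 1 → ‖U (I1_co U (V (ι x))) - V (ι x)‖ ≤ 4002 * τ := by
  have hτ0 := h.hτ0
  have hτ := h.hτ
  have hτ1 : τ ≤ 1 := hτ.trans (by norm_num)
  have hι : ∀ x : En I, ‖x‖ ≤ 1 → ‖ι x‖ ≤ 1 := fun x hx => by rwa [ι.norm_map]
  -- the projection
  have hP : ∀ w : H, R (-1) w = w - (2 : ℂ) • U (I1_co U w) := by
    intro w
    have e1 : R (-1) (w - U (I1_co U w)) = w - U (I1_co U w) := by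
      refine h3 _ fun x => ?_
      rw [inner_sub_right, U.inner_map_map, ← inner_conj_symm x, I1_co_inner, inner_conj_symm,
        sub_self]
    have e2 : R (-1) (U (I1_co U w)) = -U (I1_co U w) := by
      rw [h2, I1_D_neg, map_neg]
    rw [map_sub, e2] at e1
    rw [sub_neg_eq_add] at e1
    have e3 : R (-1) w = w - U (I1_co U w) - U (I1_co U w) := by
      rw [← e1]; abel
    rw [e3]
    module
  have hPV : ∀ x, ‖x‖ ≤ 1 → ‖U (I1_co U (V (ι x))) - V (ι x)‖ ≤ 4002 * τ := by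
    intro x hx
    have e1 := hP (V (ι x))
    have e2 : U (I1_co U (V (ι x))) - V (ι x) =
        -(1 / 2 : ℂ) • (R (-1) (V (ι x)) + V (ι x)) := by
      rw [e1]; module
    have h4 := h.near (-1) (ι x) (hι x hx)
    have e3 : I1_ext ι (I1_D (-1)) (ι x) = -ι x := by
      rw [I1_ext_ι, I1_D_neg, map_neg]
    rw [e3] at h4
    have h5 := I1_neg h.ha hτ0 (ι x) (hι x hx)
    have h6 : ‖R (-1) (V (ι x)) + V (ι x)‖ ≤ 8004 * τ := by
      have e4 : R (-1) (V (ι x)) + V (ι x) =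
          (R (-1) (V (ι x)) - V (-ι x)) + (V (-ι x) + V (ι x)) := by abel
      rw [e4]
      refine (norm_add_le _ _).trans ?_
      linarith
    rw [e2, norm_smul]
    have : ‖-(1 / 2 : ℂ)‖ = 1 / 2 := by simp
    rw [this]
    linarith
  refine ⟨⟨?_, ?_, ?_, ?_, ?_, ?_⟩, hPV⟩
  · intro x hx
    refine (I1_co_norm U _).trans ?_
    have := (I1_norm h.ha hτ0 (ι x) (hι x hx)).1
    have := hι x hx
    linarith
  · intro x y l m hx hy hl hm hw
    have e1 : I1_co U (V (ι (l • x + m • y))) - (l • I1_co U (V (ι x)) + m • I1_co U (V (ι y))) =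
        I1_co U (V (l • ι x + m • ι y) - (l • V (ι x) + m • V (ι y))) := by
      rw [map_sub, map_add (I1_co U), map_smul, map_smul, map_add ι, map_smul ι, map_smul ι]
    show ‖I1_co U (V (ι (l • x + m • y))) - (l • I1_co U (V (ι x)) + m • I1_co U (V (ι y)))‖ ≤ _
    rw [e1]
    refine (I1_co_norm U _).trans ?_
    have := I1_lin h.ha hτ0 (ι x) (ι y) l m (hι x hx) (hι y hy) hl hm (by
      rw [← map_smul ι, ← map_smul ι, ← map_add ι]; exact hι _ hw)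
    linarith
  · intro M hM x hx
    have hM1 := I1_ext_norm ι M hM
    have e1 : I1_co U (Φ (I1_ext ι M) (U (I1_co U (V (ι x))))) - I1_co U (V (ι (M x))) =
        I1_co U (Φ (I1_ext ι M) (U (I1_co U (V (ι x))) - V (ι x)) +
          (Φ (I1_ext ι M) (V (ι x)) - V (I1_ext ι M (ι x)))) := by
      rw [I1_ext_ι]
      simp only [map_add, map_sub]
      abel
    show ‖I1_co U (Φ (I1_ext ι M) (U (I1_co U (V (ι x))))) - I1_co U (V (ι (M x)))‖ ≤ _
    rw [e1]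
    refine (I1_co_norm U _).trans ((norm_add_le _ _).trans ?_)
    have h4 := hΦV _ hM1 (ι x) (hι x hx)
    have h5 : ‖Φ (I1_ext ι M) (U (I1_co U (V (ι x))) - V (ι x))‖ ≤ 2 * (4002 * τ) := by
      refine ((Φ (I1_ext ι M)).le_opNorm _).trans ?_
      exact mul_le_mul (hΦ _ hM1) (hPV x hx) (norm_nonneg _) (by norm_num)
    linarith
  · intro s x hx
    have hDs : ∀ w : H, I1_D s (I1_co U w) = I1_co U (R s w) := by
      intro w
      refine ext_inner_right ℂ fun y => ?_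
      rw [I1_co_inner, h.sym, h2]
      have h6 : ⟪I1_D s (I1_co U w), y⟫_ℂ = ⟪I1_co U w, I1_D s y⟫_ℂ := by
        rw [PiLp.inner_apply, PiLp.inner_apply]
        refine Finset.sum_congr rfl fun i _ => ?_
        unfold I1_D
        rw [I1_dg_apply, I1_dg_apply]
        simp only [RCLike.inner_apply, map_mul]
        have : (starRingEnd ℂ) (((s i : ℤ) : ℂ)) = ((s i : ℤ) : ℂ) := by
          simp
        rw [this]
        ring
      rw [h6, I1_co_inner]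
    show ‖I1_co U (V (ι (I1_D s x))) - I1_D s (I1_co U (V (ι x)))‖ ≤ _
    rw [hDs, ← map_sub, ← I1_ext_ι]
    refine (I1_co_norm U _).trans ?_
    have := h.near s (ι x) (hι x hx)
    rw [norm_sub_rev]
    linarith
  · intro y hy
    have hUy : ‖U y‖ ≤ 1 := by rwa [U.norm_map]
    obtain ⟨x, hx, hxy⟩ := h.hb (U y) hUy
    refine ⟨I1_co ι x, (I1_co_norm ι x).trans hx, ?_⟩
    set x' := I1_ext ι (I1_D (-1)) x with hx'
    have hx'1 : ‖x'‖ ≤ 1 := by
      calc ‖x'‖ ≤ ‖I1_ext ι (I1_D (-1))‖ * ‖x‖ := (I1_ext ι (I1_D (-1))).le_opNorm x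
        _ ≤ 1 * 1 := by
          gcongr
          exact I1_ext_norm ι _ (I1_D_norm _)
        _ = 1 := one_mul 1
    have h4 : ‖V x' - V (-x)‖ ≤ 8006 * τ := by
      have h5 := h.near (-1) x hx
      have h6 : ‖R (-1) (V x) - R (-1) (U y)‖ ≤ τ := by
        rw [← map_sub, h.norm]; exact hxy
      have h7 := I1_neg h.ha hτ0 x hx
      rw [h2, I1_D_neg, map_neg] at h6
      have e1 : V x' - V (-x) = -(R (-1) (V x) - V x') + (R (-1) (V x) - -U y) +
          (V x - U y) - (V (-x) + V x) := by abel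
      rw [e1]
      refine (norm_sub_le _ _).trans ?_
      have h8 := norm_add₃_le (a := -(R (-1) (V x) - V x')) (b := R (-1) (V x) - -U y)
        (c := V x - U y)
      rw [norm_neg] at h8
      linarith
    have h5 : ‖x' - -x‖ ≤ 8008 * τ := by
      have := (I1_dist h.ha hτ0 x' (-x) hx'1 (by rwa [norm_neg])).2
      linarith
    have e1 : x' - -x = (2 : ℂ) • (x - ι (I1_co ι x)) := by
      rw [hx', I1_ext_apply, I1_D_neg, map_neg]; module
    have h6 : ‖x - ι (I1_co ι x)‖ ≤ 4004 * τ := by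
      rw [e1, norm_smul] at h5
      have : ‖(2 : ℂ)‖ = 2 := by simp
      rw [this] at h5
      linarith
    have h7 := (I1_dist h.ha hτ0 x (ι (I1_co ι x)) hx (hι _ ((I1_co_norm ι x).trans hx))).1
    show ‖I1_co U (V (ι (I1_co ι x))) - y‖ ≤ _
    have e2 : I1_co U (V (ι (I1_co ι x))) - y =
        I1_co U (-(V x - V (ι (I1_co ι x))) + (V x - U y)) := by
      rw [map_add, map_neg, map_sub, map_sub, I1_co_ι]; abel
    rw [e2]
    refine (I1_co_norm U _).trans ((norm_add_le _ _).trans ?_)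
    rw [norm_neg]
    linarith
  · intro i
    show ‖I1_co U (V (ι (EuclideanSpace.single i 1))) - EuclideanSpace.single i 1‖ ≤ _
    have e1 : I1_co U (V (ι (EuclideanSpace.single i 1))) - EuclideanSpace.single i 1 =
        I1_co U (V (ι (EuclideanSpace.single i 1)) - U (EuclideanSpace.single i 1)) := by
      rw [map_sub, I1_co_ι]
    rw [e1]
    refine (I1_co_norm U _).trans ?_
    rw [norm_sub_rev]
    exact h1 i

end rep

theorem finite_unitary {K : Type u} {H : Type v} [NormedAddCommGroup K]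
    [InnerProductSpace ℂ K] [CompleteSpace K] [NormedAddCommGroup H] [InnerProductSpace ℂ H]
    [CompleteSpace H] (τ : ℝ) (hτ0 : 0 ≤ τ) (hτ : τ ≤ 1 / 10 ^ 11) (V : K → H)
    (ha : ∀ x y, ‖x‖ ≤ 1 → ‖y‖ ≤ 1 → ‖⟪V x, V y⟫_ℂ - ⟪x, y⟫_ℂ‖ ≤ τ ^ 2)
    (hb : ∀ y, ‖y‖ ≤ 1 → ∃ x, ‖x‖ ≤ 1 ∧ ‖V x - y‖ ≤ τ)
    (hc : ∀ T : K →L[ℂ] K, ‖T‖ ≤ 1 → ∃ T' : H →L[ℂ] H, ∀ x, ‖x‖ ≤ 1 →
      ‖T' (V x) - V (T x)‖ ≤ τ)
    {I : Type w} [Fintype I] [DecidableEq I] (ι : En I →ₗᵢ[ℂ] K) :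
    ∃ U : En I →ₗᵢ[ℂ] H, ∀ x, ‖x‖ ≤ 1 → ‖U x - V (ι x)‖ ≤ 10 ^ 10 * τ := by
  have hτ1 : τ ≤ 1 / 10 ^ 4 := hτ.trans (by norm_num)
  have hΦex : ∃ Φ : (K →L[ℂ] K) → (H →L[ℂ] H), ∀ T, ‖T‖ ≤ 1 → ∀ x, ‖x‖ ≤ 1 →
      ‖Φ T (V x) - V (T x)‖ ≤ τ := by
    refine ⟨fun T => if hT : ‖T‖ ≤ 1 then Classical.choose (hc T hT) else 0, ?_⟩
    intro T hT x hx
    simp only [dif_pos hT]
    exact Classical.choose_spec (hc T hT) x hx
  obtain ⟨Φ, hΦ⟩ := hΦex
  have hTx : ∀ T : K →L[ℂ] K, ‖T‖ ≤ 1 → ∀ x, ‖x‖ ≤ 1 → ‖T x‖ ≤ 1 := by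
    intro T hT x hx
    calc ‖T x‖ ≤ ‖T‖ * ‖x‖ := T.le_opNorm x
      _ ≤ 1 * 1 := by gcongr
      _ = 1 := one_mul 1
  have hΦn : ∀ T, ‖T‖ ≤ 1 → ‖Φ T‖ ≤ 1 + 4 * τ := by
    intro T hT
    have h1 := I1_cmp hτ0 hb (Φ T) (1 + 2 * τ) fun x hx => by
      have h2 := hΦ T hT x hx
      have h3 := (I1_norm ha hτ0 (T x) (hTx T hT x hx)).1
      have h4 := hTx T hT x hx
      have h5 : ‖Φ T (V x)‖ ≤ ‖Φ T (V x) - V (T x)‖ + ‖V (T x)‖ := by
        have := norm_add_le (Φ T (V x) - V (T x)) (V (T x))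
        rwa [sub_add_cancel] at this
      linarith
    by_contra hcon
    push Not at hcon
    nlinarith
  have hΦn2 : ∀ T, ‖T‖ ≤ 1 → ‖Φ T‖ ≤ 2 := fun T hT => (hΦn T hT).trans (by linarith)
  have hΦm : ∀ S T, ‖S‖ ≤ 1 → ‖T‖ ≤ 1 → ‖S * T‖ ≤ 1 → ‖Φ (S * T) - Φ S * Φ T‖ ≤ 8 * τ := by
    intro S T hS hT hST
    have h1 := I1_cmp2 hτ0 (by linarith) hb (Φ (S * T) - Φ S * Φ T) (4 * τ) fun x hx => by
      have h2 := hΦ T hT x hx
      have h3 := hΦ S hS (T x) (hTx T hT x hx)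
      have h4 := hΦ (S * T) hST x hx
      have e1 : (Φ (S * T) - Φ S * Φ T) (V x) = (Φ (S * T) (V x) - V ((S * T) x)) -
          (Φ S (V (T x)) - V (S (T x))) - Φ S (Φ T (V x) - V (T x)) := by
        show Φ (S * T) (V x) - Φ S (Φ T (V x)) = _
        rw [map_sub]
        show _ = (Φ (S * T) (V x) - V (S (T x))) - _ - _
        abel
      rw [e1]
      have h5 : ‖Φ S (Φ T (V x) - V (T x))‖ ≤ 2 * τ := by
        refine ((Φ S).le_opNorm _).trans ?_
        exact mul_le_mul (hΦn2 S hS) h2 (norm_nonneg _) (by norm_num)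
      refine (norm_sub_le _ _).trans ?_
      have h6 := norm_sub_le (Φ (S * T) (V x) - V ((S * T) x)) (Φ S (V (T x)) - V (S (T x)))
      linarith
    linarith
  have hΦ1 : ‖Φ 1 - 1‖ ≤ 8 * τ := by
    have h1n : ‖(1 : K →L[ℂ] K)‖ ≤ 1 := ContinuousLinearMap.norm_id_le
    have h1 := I1_cmp2 hτ0 (by linarith) hb (Φ 1 - 1) τ fun x hx => hΦ 1 h1n x hx
    linarith
  obtain ⟨ρ, hρ⟩ := near_rep (fun s : I → ℤˣ => Φ (I1_ext ι (I1_D s))) (8 * τ) (by linarith)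
    (fun s => (hΦn _ (I1_ext_norm ι _ (I1_D_norm s))).trans (by linarith))
    (fun s t => by
      have h1 := hΦm (I1_ext ι (I1_D s)) (I1_ext ι (I1_D t)) (I1_ext_norm ι _ (I1_D_norm s))
        (I1_ext_norm ι _ (I1_D_norm t)) (by
          rw [I1_ext_mul, I1_D_mul]; exact I1_ext_norm ι _ (I1_D_norm _))
      rw [I1_ext_mul, I1_D_mul] at h1
      exact h1)
    (by
      show ‖Φ (I1_ext ι (I1_D 1)) - 1‖ ≤ _
      rw [I1_D_one, I1_ext_one]; exact hΦ1)
  have hrep : I1_Rep τ V ι (fun s => (ρ s : H →L[ℂ] H)) := by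
    refine ⟨ha, hb, hτ0, hτ, ?_, ?_, ?_, ?_, ?_⟩
    · intro s t
      show ((ρ (s * t) : unitary (H →L[ℂ] H)) : H →L[ℂ] H) = _
      rw [map_mul]; rfl
    · show ((ρ 1 : unitary (H →L[ℂ] H)) : H →L[ℂ] H) = _
      rw [map_one]; rfl
    · intro s u
      have h1 : star (ρ s : H →L[ℂ] H) * (ρ s : H →L[ℂ] H) = 1 :=
        Unitary.coe_star_mul_self (ρ s)
      have h2 : ⟪(ρ s : H →L[ℂ] H) u, (ρ s : H →L[ℂ] H) u⟫_ℂ = ⟪u, u⟫_ℂ := by
        rw [← ContinuousLinearMap.adjoint_inner_left]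
        have := congrArg (fun A : H →L[ℂ] H => A u) h1
        have h3 : (ContinuousLinearMap.adjoint (ρ s : H →L[ℂ] H)) ((ρ s : H →L[ℂ] H) u) = u :=
          this
        rw [h3]
      rw [I1_inner_self, I1_inner_self] at h2
      have h3 : ‖(ρ s : H →L[ℂ] H) u‖ ^ 2 = ‖u‖ ^ 2 := by exact_mod_cast h2
      exact (pow_left_inj₀ (norm_nonneg _) (norm_nonneg _) two_ne_zero).1 h3
    · intro s u v
      have h1 : star (ρ s : H →L[ℂ] H) * (ρ s : H →L[ℂ] H) = 1 :=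
        Unitary.coe_star_mul_self (ρ s)
      have h2 : (ρ s : H →L[ℂ] H) * (ρ s : H →L[ℂ] H) = 1 := by
        have h3 : ρ (s * s) = 1 := by
          have : s * s = 1 := by
            funext i
            exact Int.units_mul_self (s i)
          rw [this, map_one]
        rw [map_mul] at h3
        exact congrArg (fun A : unitary (H →L[ℂ] H) => (A : H →L[ℂ] H)) h3
      have h4 : star (ρ s : H →L[ℂ] H) = (ρ s : H →L[ℂ] H) := by
        calc star (ρ s : H →L[ℂ] H) = star (ρ s : H →L[ℂ] H) *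
              ((ρ s : H →L[ℂ] H) * (ρ s : H →L[ℂ] H)) := by rw [h2, mul_one]
          _ = (ρ s : H →L[ℂ] H) := by rw [← mul_assoc, h1, one_mul]
      have h5 : ContinuousLinearMap.adjoint (ρ s : H →L[ℂ] H) = (ρ s : H →L[ℂ] H) := h4
      have h6 := ContinuousLinearMap.adjoint_inner_left (ρ s : H →L[ℂ] H) v u
      rw [h5] at h6
      exact h6
    · intro s x hx
      have h1 := hρ s
      have h2 := hΦ (I1_ext ι (I1_D s)) (I1_ext_norm ι _ (I1_D_norm s)) x hx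
      have h3 := (I1_norm ha hτ0 x hx).1
      have h4 : ‖((ρ s : H →L[ℂ] H) - Φ (I1_ext ι (I1_D s))) (V x)‖ ≤
          (1000 * (8 * τ)) * (1 + τ) := by
        refine (ContinuousLinearMap.le_opNorm _ _).trans ?_
        exact mul_le_mul h1 (by linarith) (norm_nonneg _) (by positivity)
      have e1 : (ρ s : H →L[ℂ] H) (V x) - V (I1_ext ι (I1_D s) x) =
          ((ρ s : H →L[ℂ] H) - Φ (I1_ext ι (I1_D s))) (V x) +
          (Φ (I1_ext ι (I1_D s)) (V x) - V (I1_ext ι (I1_D s) x)) := by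
        show _ = ((ρ s : H →L[ℂ] H) (V x) - Φ (I1_ext ι (I1_D s)) (V x)) + _
        abel
      show ‖(ρ s : H →L[ℂ] H) (V x) - V (I1_ext ι (I1_D s) x)‖ ≤ _
      rw [e1]
      refine (norm_add_le _ _).trans ?_
      nlinarith
  obtain ⟨U, hU1, hU2, hU3⟩ := hrep.exists_U
  obtain ⟨hcore, hPV⟩ := hrep.core_hyp hU1 hU2 hU3 Φ hΦn2 hΦ
  have hfin := core hcore (by
    calc 8100 * τ ≤ 8100 * (1 / 10 ^ 11) := by gcongr
      _ ≤ 1 / 10 ^ 6 := by norm_num)
  refine ⟨U, fun x hx => ?_⟩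
  have h1 := hfin x hx
  have h2 := hPV x hx
  have h3 : ‖U x - U (I1_co U (V (ι x)))‖ ≤ 10 ^ 6 * (8100 * τ) := by
    rw [← map_sub, U.norm_map, norm_sub_rev]
    exact h1
  have h4 := norm_sub_le_norm_sub_add_norm_sub (U x) (U (I1_co U (V (ι x)))) (V (ι x))
  nlinarith

end Pool.Agent.helper32.CK
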