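import Pool.Agent.helper49.CK.W
import Pool.Agent.helper49.CK.I1
import Pool.Agent.helper17.CK.P

/-!
# ck:I2 — approximate unitaries, global version
-/

namespace Pool.Agent.helper32.CK

open scoped InnerProductSpace ComplexOrder
open Filter Topology

universe u v w

/-- norm of an operator from its sesquilinear form on the unit ball -/
theorem I2_norm_le {K : Type u} [NormedAddCommGroup K] [InnerProductSpace ℂ K]
    (A : K →L[ℂ] K) (κ : ℝ) (hκ : 0 ≤ κ)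
    (h : ∀ x y, ‖x‖ ≤ 1 → ‖y‖ ≤ 1 → ‖⟪A x, y⟫_ℂ‖ ≤ κ) : ‖A‖ ≤ κ := by
  have hs : ∀ x y, ‖⟪A x, y⟫_ℂ‖ ≤ κ * ‖x‖ * ‖y‖ := by
    intro x y
    by_cases hx : x = 0
    · simp [hx]
    by_cases hy : y = 0
    · simp [hy]
    have hx0 : (0 : ℝ) < ‖x‖ := norm_pos_iff.2 hx
    have hy0 : (0 : ℝ) < ‖y‖ := norm_pos_iff.2 hy
    have h1 := h (((‖x‖ : ℝ) : ℂ)⁻¹ • x) (((‖y‖ : ℝ) : ℂ)⁻¹ • y) (by
      rw [norm_smul, norm_inv, Complex.norm_real, norm_norm, inv_mul_cancel₀ hx0.ne']) (by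
      rw [norm_smul, norm_inv, Complex.norm_real, norm_norm, inv_mul_cancel₀ hy0.ne'])
    rw [map_smul, inner_smul_left, inner_smul_right, norm_mul, norm_mul, RCLike.norm_conj,
      norm_inv, norm_inv, Complex.norm_real, Complex.norm_real, norm_norm, norm_norm] at h1
    calc ‖⟪A x, y⟫_ℂ‖ = (‖x‖⁻¹ * (‖y‖⁻¹ * ‖⟪A x, y⟫_ℂ‖)) * ‖x‖ * ‖y‖ := by
          field_simp
      _ ≤ κ * ‖x‖ * ‖y‖ := by gcongr
  refine ContinuousLinearMap.opNorm_le_bound _ hκ fun x => ?_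
  have h1 := hs x (A x)
  rw [inner_self_eq_norm_sq_to_K, norm_pow] at h1
  have h2 : ‖(((‖A x‖ : ℝ) : ℂ))‖ ^ 2 ≤ κ * ‖x‖ * ‖A x‖ := h1
  rw [Complex.norm_real, norm_norm, sq] at h2
  by_cases h0 : ‖A x‖ = 0
  · rw [h0]; positivity
  · exact le_of_mul_le_mul_right h2 (lt_of_le_of_ne (norm_nonneg _) (Ne.symm h0))

theorem near_unitary {K : Type u} {H : Type v} [NormedAddCommGroup K]
    [InnerProductSpace ℂ K] [CompleteSpace K] [NormedAddCommGroup H] [InnerProductSpace ℂ H]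
    [CompleteSpace H] (τ : ℝ) (hτ0 : 0 ≤ τ) (hτ : τ ≤ 1 / 10 ^ 11) (V : K → H)
    (ha : ∀ x y, ‖x‖ ≤ 1 → ‖y‖ ≤ 1 → ‖⟪V x, V y⟫_ℂ - ⟪x, y⟫_ℂ‖ ≤ τ ^ 2)
    (hb : ∀ y, ‖y‖ ≤ 1 → ∃ x, ‖x‖ ≤ 1 ∧ ‖V x - y‖ ≤ τ)
    (hc : ∀ T : K →L[ℂ] K, ‖T‖ ≤ 1 → ∃ T' : H →L[ℂ] H, ∀ x, ‖x‖ ≤ 1 →
      ‖T' (V x) - V (T x)‖ ≤ τ) :
    ∃ U : K ≃ₗᵢ[ℂ] H, ∀ x, ‖x‖ ≤ 1 → ‖U x - V x‖ ≤ 10 ^ 11 * τ := by
  classical
  set η : ℝ := 10 ^ 10 * τ with hη
  have hη0 : 0 ≤ η := by positivity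
  have hη1 : η ≤ 1 / 10 := by
    rw [hη]
    calc (10 : ℝ) ^ 10 * τ ≤ 10 ^ 10 * (1 / 10 ^ 11) := by gcongr
      _ = 1 / 10 := by norm_num
  have hτ1 : τ ≤ 1 := hτ.trans (by norm_num)
  -- norms of `V x`
  have hVn : ∀ x, ‖x‖ ≤ 1 → ‖V x‖ ≤ 1 + τ := by
    intro x hx
    have h1 := ha x x hx hx
    have h2 : ‖V x‖ ^ 2 ≤ 1 + τ ^ 2 := by
      have e1 : ⟪V x, V x⟫_ℂ = ((‖V x‖ ^ 2 : ℝ) : ℂ) := by
        rw [inner_self_eq_norm_sq_to_K]; push_cast; rfl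
      have e2 : ⟪x, x⟫_ℂ = ((‖x‖ ^ 2 : ℝ) : ℂ) := by
        rw [inner_self_eq_norm_sq_to_K]; push_cast; rfl
      rw [e1, e2, ← Complex.ofReal_sub, Complex.norm_real, Real.norm_eq_abs] at h1
      have h3 := (abs_le.1 h1).2
      have h4 : ‖x‖ ^ 2 ≤ 1 := pow_le_one₀ (norm_nonneg _) hx
      linarith
    nlinarith [norm_nonneg (V x)]
  -- finite dimensional pieces
  have hfin : ∀ s : Finset K, ∃ T : K →L[ℂ] H, ‖T‖ ≤ 1 ∧
      ∀ x ∈ s, ‖x‖ ≤ 1 → ‖T x - V x‖ ≤ η := by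
    intro s
    let F : Submodule ℂ K := Submodule.span ℂ (s : Set K)
    have : FiniteDimensional ℂ F := FiniteDimensional.span_finset ℂ s
    let b := stdOrthonormalBasis ℂ F
    let ι : En (Fin (Module.finrank ℂ F)) →ₗᵢ[ℂ] K :=
      F.subtypeₗᵢ.comp b.repr.symm.toLinearIsometry
    obtain ⟨U, hU⟩ := finite_unitary τ hτ0 hτ V ha hb hc ι
    -- the coordinates
    let P : K →L[ℂ] En (Fin (Module.finrank ℂ F)) :=
      (b.repr.toContinuousLinearEquiv : F →L[ℂ] _).comp (F.orthogonalProjectionOnto)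
    refine ⟨U.toContinuousLinearMap.comp P, ?_, ?_⟩
    · refine ContinuousLinearMap.opNorm_le_bound _ zero_le_one fun x => ?_
      have e : ‖(U.toContinuousLinearMap.comp P) x‖ = ‖F.orthogonalProjectionOnto x‖ := by
        show ‖U (b.repr (F.orthogonalProjectionOnto x))‖ = _
        rw [U.norm_map, b.repr.norm_map]
      rw [e, one_mul]
      exact Submodule.norm_orthogonalProjectionOnto_apply_le F x
    · intro x hx hx1
      have hxF : x ∈ F := Submodule.subset_span hx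
      have e1 : ι (P x) = x := by
        show ((b.repr.symm (b.repr (F.orthogonalProjectionOnto x)) : F) : K) = x
        rw [LinearIsometryEquiv.symm_apply_apply]
        exact congrArg Subtype.val (Submodule.orthogonalProjectionOnto_mem_subspace_eq_self (K := F) ⟨x, hxF⟩)
      have e2 : ‖P x‖ ≤ 1 := by
        rw [← ι.norm_map (P x), e1]
        exact hx1
      have h1 := hU (P x) e2
      rw [e1] at h1
      exact h1
  choose T hT1 hT2 using hfin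
  obtain ⟨L, hLn, -, hL⟩ := exists_wlim (Ultrafilter.of (atTop : Filter (Finset K))) T 1 hT1
  have hLV : ∀ x, ‖x‖ ≤ 1 → ‖L x - V x‖ ≤ η := by
    intro x hx
    refine hL x (V x) η ?_
    have h1 : ∀ᶠ s : Finset K in atTop, x ∈ s := by
      filter_upwards [Filter.eventually_ge_atTop ({x} : Finset K)] with s hs
      exact hs (Finset.mem_singleton_self x)
    have h2 : ∀ᶠ s : Finset K in ((Ultrafilter.of (atTop : Filter (Finset K)) :
        Ultrafilter (Finset K)) : Filter (Finset K)), x ∈ s :=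
      Ultrafilter.of_le (atTop : Filter (Finset K)) h1
    filter_upwards [h2] with s hs
    exact hT2 s x hs hx
  have hL1 : ∀ x, ‖x‖ ≤ 1 → ‖L x‖ ≤ 1 := fun x hx =>
    (L.le_opNorm x).trans (mul_le_one₀ hLn (norm_nonneg _) hx)
  have hform : ‖(ContinuousLinearMap.adjoint L) ∘L L - 1‖ ≤ 3 * η := by
    refine I2_norm_le _ _ (by positivity) fun x y hx hy => ?_
    have e1 : ⟪((ContinuousLinearMap.adjoint L) ∘L L - 1) x, y⟫_ℂ =
        ⟪L x, L y⟫_ℂ - ⟪x, y⟫_ℂ := by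
      rw [sub_apply, inner_sub_left, ContinuousLinearMap.comp_apply,
        ContinuousLinearMap.adjoint_inner_left, one_apply_eq_self]
    rw [e1]
    have e2 : ⟪L x, L y⟫_ℂ - ⟪x, y⟫_ℂ = ⟪L x - V x, L y⟫_ℂ + ⟪V x, L y - V y⟫_ℂ +
        (⟪V x, V y⟫_ℂ - ⟪x, y⟫_ℂ) := by
      rw [inner_sub_left, inner_sub_right]; ring
    rw [e2]
    have h1 : ‖⟪L x - V x, L y⟫_ℂ‖ ≤ η * 1 :=
      (norm_inner_le_norm _ _).trans (mul_le_mul (hLV x hx) (hL1 y hy) (norm_nonneg _) hη0)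
    have h2 : ‖⟪V x, L y - V y⟫_ℂ‖ ≤ (1 + τ) * η :=
      (norm_inner_le_norm _ _).trans (mul_le_mul (hVn x hx) (hLV y hy) (norm_nonneg _)
        (by linarith))
    have h3 := ha x y hx hy
    have h4 : τ ^ 2 ≤ τ := by nlinarith
    have h5 : τ ≤ η / 2 := by rw [hη]; linarith
    have h6 : τ * η ≤ η / 2 := by nlinarith
    refine (norm_add₃_le).trans ?_
    linarith
  obtain ⟨U, hU1, hU2, hU3⟩ := exists_isometry_near L (3 * η) (by linarith) hform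
  have hUV : ∀ x, ‖x‖ ≤ 1 → ‖U x - V x‖ ≤ 7 * η := by
    intro x hx
    have h1 := hU1 x
    have h2 : 2 * (3 * η) * ‖x‖ ≤ 6 * η := by nlinarith [norm_nonneg x]
    have h3 := norm_sub_le_norm_sub_add_norm_sub (U x) (L x) (V x)
    have h4 := hLV x hx
    linarith
  -- surjectivity
  have hsurj : Function.Surjective U := by
    let R : Submodule ℂ H := LinearMap.range U.toLinearMap
    have hRc : IsComplete (R : Set H) := by
      have : (R : Set H) = Set.range U := by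
        ext z; simp [R]
      rw [this]
      exact U.isometry.isUniformInducing.isComplete_range
    have : CompleteSpace R := hRc.completeSpace_coe
    by_contra hns
    have hR : R ≠ ⊤ := by
      intro h
      apply hns
      intro z
      have hz : z ∈ R := by rw [h]; trivial
      obtain ⟨x, hx⟩ := hz
      exact ⟨x, hx⟩
    have hRo : Rᗮ ≠ ⊥ := fun h => hR (Submodule.orthogonal_eq_bot_iff.1 h)
    obtain ⟨z, hz, hz0⟩ := Submodule.exists_mem_ne_zero_of_ne_bot hRo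
    have hzn : (0 : ℝ) < ‖z‖ := norm_pos_iff.2 hz0
    set y : H := ((‖z‖ : ℝ) : ℂ)⁻¹ • z with hy
    have hyR : y ∈ Rᗮ := Submodule.smul_mem _ _ hz
    have hy1 : ‖y‖ = 1 := by
      rw [hy, norm_smul, norm_inv, Complex.norm_real, norm_norm, inv_mul_cancel₀ hzn.ne']
    obtain ⟨x, hx, hxy⟩ := hb y hy1.le
    have h1 : ‖U x - y‖ ≤ 7 * η + τ := by
      have := norm_sub_le_norm_sub_add_norm_sub (U x) (V x) y
      have h2 := hUV x hx
      linarith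
    have h2 : ⟪U x, y⟫_ℂ = 0 := by
      exact (Submodule.mem_orthogonal _ _).1 hyR (U x) ⟨x, rfl⟩
    have h3 : ‖U x - y‖ ^ 2 = ‖U x‖ ^ 2 + ‖y‖ ^ 2 := by
      have := @norm_sub_sq ℂ H _ _ _ (U x) y
      rw [this, h2]
      simp
    have h4 : 7 * η + τ < 1 := by
      have : τ ≤ 1 / 10 ^ 11 := hτ
      have : (1 : ℝ) / 10 ^ 11 ≤ 1 / 10 := by norm_num
      linarith
    rw [hy1] at h3
    nlinarith [sq_nonneg (‖U x‖), norm_nonneg (U x - y)]
  refine ⟨LinearIsometryEquiv.ofSurjective U hsurj, fun x hx => ?_⟩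
  have h1 := hUV x hx
  have h2 : 7 * η ≤ 10 ^ 11 * τ := by rw [hη]; nlinarith
  exact h1.trans h2

end Pool.Agent.helper32.CK
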