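import Pool.Agent.helper32.CK.Defs

/-!
# ck:I1 (first part) — maps which preserve inner products approximately; extension of operators
-/

namespace Pool.Agent.helper32.CK

open scoped InnerProductSpace ComplexOrder
open Filter Topology

universe u v w

section V

variable {K : Type u} {H : Type v} [NormedAddCommGroup K] [InnerProductSpace ℂ K]
  [NormedAddCommGroup H] [InnerProductSpace ℂ H] {τ : ℝ} {V : K → H}

theorem I1_inner_self (x : K) : ⟪x, x⟫_ℂ = ((‖x‖ ^ 2 : ℝ) : ℂ) := by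
  rw [inner_self_eq_norm_sq_to_K]; push_cast; rfl

theorem I1_sq (ha : ∀ x y, ‖x‖ ≤ 1 → ‖y‖ ≤ 1 → ‖⟪V x, V y⟫_ℂ - ⟪x, y⟫_ℂ‖ ≤ τ ^ 2)
    {n : ℕ} (a : Fin n → K) (p : Fin n → ℂ) (h1 : ∀ i, ‖a i‖ ≤ 1) (h2 : ∀ i, ‖p i‖ ≤ 1) :
    |‖∑ i, p i • V (a i)‖ ^ 2 - ‖∑ i, p i • a i‖ ^ 2| ≤ (n : ℝ) ^ 2 * τ ^ 2 := by
  have e : (((‖∑ i, p i • V (a i)‖ ^ 2 - ‖∑ i, p i • a i‖ ^ 2 : ℝ)) : ℂ) =
      ∑ i, ∑ j, (starRingEnd ℂ (p i)) * (p j * (⟪V (a i), V (a j)⟫_ℂ - ⟪a i, a j⟫_ℂ)) := by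
    push_cast
    have e1 := I1_inner_self (∑ i, p i • V (a i))
    have e2 := I1_inner_self (∑ i, p i • a i)
    push_cast at e1 e2
    rw [← e1, ← e2, sum_inner, sum_inner, ← Finset.sum_sub_distrib]
    refine Finset.sum_congr rfl fun i _ => ?_
    rw [inner_sum, inner_sum, ← Finset.sum_sub_distrib]
    refine Finset.sum_congr rfl fun j _ => ?_
    rw [inner_smul_left, inner_smul_left, inner_smul_right, inner_smul_right]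
    ring
  rw [← Real.norm_eq_abs, ← Complex.norm_real, e]
  refine (norm_sum_le _ _).trans ?_
  refine (Finset.sum_le_sum fun i _ => norm_sum_le _ _).trans ?_
  have hb : ∀ i ∈ (Finset.univ : Finset (Fin n)), ∀ j ∈ (Finset.univ : Finset (Fin n)),
      ‖(starRingEnd ℂ (p i)) * (p j * (⟪V (a i), V (a j)⟫_ℂ - ⟪a i, a j⟫_ℂ))‖ ≤ τ ^ 2 := by
    intro i _ j _
    rw [norm_mul, norm_mul, RCLike.norm_conj]
    have h3 := ha (a i) (a j) (h1 i) (h1 j)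
    calc ‖p i‖ * (‖p j‖ * ‖⟪V (a i), V (a j)⟫_ℂ - ⟪a i, a j⟫_ℂ‖) ≤ 1 * (1 * τ ^ 2) := by
          gcongr
          · exact h2 i
          · exact h2 j
      _ = τ ^ 2 := by ring
  refine (Finset.sum_le_sum fun i hi => Finset.sum_le_sum fun j hj => hb i hi j hj).trans ?_
  rw [Finset.sum_const, Finset.sum_const, Finset.card_univ, Fintype.card_fin, nsmul_eq_mul,
    nsmul_eq_mul]
  apply le_of_eq
  ring

theorem I1_le_of_sq {a b c : ℝ} (hb : 0 ≤ b) (hc : 0 ≤ c) (h : a ^ 2 - b ^ 2 ≤ c ^ 2) :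
    a ≤ b + c := by
  nlinarith [sq_nonneg (a - (b + c)), mul_nonneg hb hc]

theorem I1_lin (ha : ∀ x y, ‖x‖ ≤ 1 → ‖y‖ ≤ 1 → ‖⟪V x, V y⟫_ℂ - ⟪x, y⟫_ℂ‖ ≤ τ ^ 2)
    (hτ0 : 0 ≤ τ) (x y : K) (l m : ℂ) (hx : ‖x‖ ≤ 1) (hy : ‖y‖ ≤ 1) (hl : ‖l‖ ≤ 1)
    (hm : ‖m‖ ≤ 1) (hw : ‖l • x + m • y‖ ≤ 1) :
    ‖V (l • x + m • y) - (l • V x + m • V y)‖ ≤ 3 * τ := by
  have h := I1_sq ha ![l • x + m • y, x, y] ![1, -l, -m]
    (by intro i; fin_cases i <;> simpa) (by intro i; fin_cases i <;> simpa)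
  rw [Fin.sum_univ_three, Fin.sum_univ_three] at h
  simp only [Matrix.cons_val_zero, Matrix.cons_val_one, Matrix.cons_val] at h
  have e1 : (1 : ℂ) • V (l • x + m • y) + -l • V x + -m • V y =
      V (l • x + m • y) - (l • V x + m • V y) := by
    rw [one_smul, neg_smul, neg_smul]; abel
  have e2 : (1 : ℂ) • (l • x + m • y) + -l • x + -m • y = 0 := by
    rw [one_smul, neg_smul, neg_smul]; abel
  rw [e1, e2, norm_zero] at h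
  have h3 := (abs_le.1 h).2
  push_cast at h3
  have h4 := I1_le_of_sq (a := ‖V (l • x + m • y) - (l • V x + m • V y)‖) (b := 0) (c := 3 * τ)
    le_rfl (by positivity) (by nlinarith)
  linarith

theorem I1_smul (ha : ∀ x y, ‖x‖ ≤ 1 → ‖y‖ ≤ 1 → ‖⟪V x, V y⟫_ℂ - ⟪x, y⟫_ℂ‖ ≤ τ ^ 2)
    (hτ0 : 0 ≤ τ) (x : K) (l : ℂ) (hx : ‖x‖ ≤ 1) (hl : ‖l‖ ≤ 1) :
    ‖V (l • x) - l • V x‖ ≤ 2 * τ := by
  have hlx : ‖l • x‖ ≤ 1 := by
    rw [norm_smul]; exact mul_le_one₀ hl (norm_nonneg _) hx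
  have h := I1_sq ha ![l • x, x] ![1, -l]
    (by intro i; fin_cases i <;> simpa) (by intro i; fin_cases i <;> simpa)
  rw [Fin.sum_univ_two, Fin.sum_univ_two] at h
  simp only [Matrix.cons_val_zero, Matrix.cons_val_one] at h
  have e1 : (1 : ℂ) • V (l • x) + -l • V x = V (l • x) - l • V x := by
    rw [one_smul, neg_smul]; abel
  have e2 : (1 : ℂ) • (l • x) + -l • x = 0 := by
    rw [one_smul, neg_smul]; abel
  rw [e1, e2, norm_zero] at h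
  have h3 := (abs_le.1 h).2
  push_cast at h3
  have h4 := I1_le_of_sq (a := ‖V (l • x) - l • V x‖) (b := 0) (c := 2 * τ)
    le_rfl (by positivity) (by nlinarith)
  linarith

theorem I1_neg (ha : ∀ x y, ‖x‖ ≤ 1 → ‖y‖ ≤ 1 → ‖⟪V x, V y⟫_ℂ - ⟪x, y⟫_ℂ‖ ≤ τ ^ 2)
    (hτ0 : 0 ≤ τ) (x : K) (hx : ‖x‖ ≤ 1) : ‖V (-x) + V x‖ ≤ 2 * τ := by
  have h := I1_smul ha hτ0 x (-1) hx (by simp)
  rwa [neg_one_smul, neg_one_smul, sub_neg_eq_add] at h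

theorem I1_dist (ha : ∀ x y, ‖x‖ ≤ 1 → ‖y‖ ≤ 1 → ‖⟪V x, V y⟫_ℂ - ⟪x, y⟫_ℂ‖ ≤ τ ^ 2)
    (hτ0 : 0 ≤ τ) (x y : K) (hx : ‖x‖ ≤ 1) (hy : ‖y‖ ≤ 1) :
    ‖V x - V y‖ ≤ ‖x - y‖ + 2 * τ ∧ ‖x - y‖ ≤ ‖V x - V y‖ + 2 * τ := by
  have h := I1_sq ha ![x, y] ![1, -1]
    (by intro i; fin_cases i <;> simpa) (by intro i; fin_cases i <;> simp)
  rw [Fin.sum_univ_two, Fin.sum_univ_two] at h
  simp only [Matrix.cons_val_zero, Matrix.cons_val_one] at h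
  have e1 : (1 : ℂ) • V x + -1 • V y = V x - V y := by
    simp [sub_eq_add_neg]
  have e2 : (1 : ℂ) • x + (-1 : ℂ) • y = x - y := by
    rw [one_smul, neg_one_smul, sub_eq_add_neg]
  have e3 : (1 : ℂ) • V x + (-1 : ℂ) • V y = V x - V y := by
    rw [one_smul, neg_one_smul, sub_eq_add_neg]
  rw [e2, e3] at h
  have h3 := abs_le.1 h
  push_cast at h3
  constructor
  · exact I1_le_of_sq (norm_nonneg _) (by positivity) (by nlinarith)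
  · exact I1_le_of_sq (norm_nonneg _) (by positivity) (by nlinarith)

theorem I1_norm (ha : ∀ x y, ‖x‖ ≤ 1 → ‖y‖ ≤ 1 → ‖⟪V x, V y⟫_ℂ - ⟪x, y⟫_ℂ‖ ≤ τ ^ 2)
    (hτ0 : 0 ≤ τ) (x : K) (hx : ‖x‖ ≤ 1) : ‖V x‖ ≤ ‖x‖ + τ ∧ ‖x‖ ≤ ‖V x‖ + τ := by
  have h := I1_sq ha ![x] ![1] (by intro i; fin_cases i; simpa) (by intro i; fin_cases i; simp)
  rw [Fin.sum_univ_one, Fin.sum_univ_one] at h
  simp only [Matrix.cons_val_zero, one_smul] at h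
  have h3 := abs_le.1 h
  push_cast at h3
  constructor
  · exact I1_le_of_sq (norm_nonneg _) hτ0 (by nlinarith)
  · exact I1_le_of_sq (norm_nonneg _) hτ0 (by nlinarith)

/-- comparison of operators on the range of `V` -/
theorem I1_cmp (hτ0 : 0 ≤ τ) (hb : ∀ y, ‖y‖ ≤ 1 → ∃ x, ‖x‖ ≤ 1 ∧ ‖V x - y‖ ≤ τ)
    (A : H →L[ℂ] H) (k : ℝ) (hk : ∀ x, ‖x‖ ≤ 1 → ‖A (V x)‖ ≤ k) : ‖A‖ * (1 - τ) ≤ k := by
  have hk0 : 0 ≤ k := (norm_nonneg _).trans (hk 0 (by simp))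
  have h1 : ‖A‖ ≤ ‖A‖ * τ + k := by
    refine ContinuousLinearMap.opNorm_le_bound _ (by positivity) fun h => ?_
    by_cases h0 : h = 0
    · simp [h0]
    have hn : (0 : ℝ) < ‖h‖ := norm_pos_iff.2 h0
    have hu : ‖((‖h‖ : ℝ) : ℂ)⁻¹ • h‖ = 1 := by
      rw [norm_smul, norm_inv, Complex.norm_real, norm_norm, inv_mul_cancel₀ hn.ne']
    obtain ⟨x, hx, hxy⟩ := hb _ hu.le
    have h2 : ‖A (((‖h‖ : ℝ) : ℂ)⁻¹ • h)‖ ≤ ‖A‖ * τ + k := by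
      have e : A (((‖h‖ : ℝ) : ℂ)⁻¹ • h) = A (V x) - A (V x - ((‖h‖ : ℝ) : ℂ)⁻¹ • h) := by
        rw [map_sub]; abel
      rw [e]
      refine (norm_sub_le _ _).trans ?_
      have h3 := (A.le_opNorm (V x - ((‖h‖ : ℝ) : ℂ)⁻¹ • h)).trans
        (mul_le_mul_of_nonneg_left hxy (norm_nonneg _))
      linarith [hk x hx]
    rw [map_smul, norm_smul, norm_inv, Complex.norm_real, norm_norm] at h2
    calc ‖A h‖ = (‖h‖⁻¹ * ‖A h‖) * ‖h‖ := by field_simp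
      _ ≤ (‖A‖ * τ + k) * ‖h‖ := by gcongr
  linarith

theorem I1_cmp2 (hτ0 : 0 ≤ τ) (hτ : τ ≤ 1 / 2)
    (hb : ∀ y, ‖y‖ ≤ 1 → ∃ x, ‖x‖ ≤ 1 ∧ ‖V x - y‖ ≤ τ)
    (A : H →L[ℂ] H) (k : ℝ) (hk : ∀ x, ‖x‖ ≤ 1 → ‖A (V x)‖ ≤ k) : ‖A‖ ≤ 2 * k := by
  have h1 := I1_cmp hτ0 hb A k hk
  nlinarith [norm_nonneg A]

end V

section ext

variable {K : Type u} [NormedAddCommGroup K] [InnerProductSpace ℂ K] [CompleteSpace K]
  {I : Type w} [Fintype I] [DecidableEq I]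

/-- coordinates -/
noncomputable def I1_co (ι : En I →ₗᵢ[ℂ] K) : K →L[ℂ] En I :=
  ContinuousLinearMap.adjoint ι.toContinuousLinearMap

theorem I1_co_inner (ι : En I →ₗᵢ[ℂ] K) (x : K) (y : En I) :
    ⟪I1_co ι x, y⟫_ℂ = ⟪x, ι y⟫_ℂ :=
  ContinuousLinearMap.adjoint_inner_left ι.toContinuousLinearMap y x

theorem I1_co_ι (ι : En I →ₗᵢ[ℂ] K) (x : En I) : I1_co ι (ι x) = x := by
  refine ext_inner_right ℂ fun y => ?_
  rw [I1_co_inner, ι.inner_map_map]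

theorem I1_co_norm (ι : En I →ₗᵢ[ℂ] K) (x : K) : ‖I1_co ι x‖ ≤ ‖x‖ := by
  have h : ‖I1_co ι‖ ≤ 1 := by
    rw [I1_co, LinearIsometryEquiv.norm_map]
    exact ι.norm_toContinuousLinearMap_le
  calc ‖I1_co ι x‖ ≤ ‖I1_co ι‖ * ‖x‖ := (I1_co ι).le_opNorm x
    _ ≤ 1 * ‖x‖ := by gcongr
    _ = ‖x‖ := one_mul _

/-- extension of an operator by the identity -/
noncomputable def I1_ext (ι : En I →ₗᵢ[ℂ] K) (M : En I →L[ℂ] En I) : K →L[ℂ] K :=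
  ι.toContinuousLinearMap ∘L M ∘L I1_co ι + (1 - ι.toContinuousLinearMap ∘L I1_co ι)

theorem I1_ext_apply (ι : En I →ₗᵢ[ℂ] K) (M : En I →L[ℂ] En I) (x : K) :
    I1_ext ι M x = ι (M (I1_co ι x)) + (x - ι (I1_co ι x)) := rfl

theorem I1_ext_ι (ι : En I →ₗᵢ[ℂ] K) (M : En I →L[ℂ] En I) (x : En I) :
    I1_ext ι M (ι x) = ι (M x) := by
  rw [I1_ext_apply, I1_co_ι, sub_self, add_zero]

theorem I1_ext_mul (ι : En I →ₗᵢ[ℂ] K) (M N : En I →L[ℂ] En I) :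
    I1_ext ι M * I1_ext ι N = I1_ext ι (M * N) := by
  ext x
  show I1_ext ι M (I1_ext ι N x) = _
  rw [I1_ext_apply ι N, map_add, I1_ext_ι, I1_ext_apply ι M (x - _), map_sub (I1_co ι), I1_co_ι,
    sub_self, map_zero, map_zero, sub_zero, zero_add, I1_ext_apply]
  rfl

theorem I1_ext_one (ι : En I →ₗᵢ[ℂ] K) : I1_ext ι 1 = 1 := by
  ext x
  rw [I1_ext_apply]
  show ι (I1_co ι x) + (x - ι (I1_co ι x)) = x
  abel

theorem I1_ext_norm (ι : En I →ₗᵢ[ℂ] K) (M : En I →L[ℂ] En I) (hM : ‖M‖ ≤ 1) :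
    ‖I1_ext ι M‖ ≤ 1 := by
  refine ContinuousLinearMap.opNorm_le_bound _ zero_le_one fun x => ?_
  rw [one_mul, I1_ext_apply]
  have horth : ∀ z : En I, ⟪ι z, x - ι (I1_co ι x)⟫_ℂ = 0 := by
    intro z
    rw [inner_sub_right, ι.inner_map_map, ← inner_conj_symm z, I1_co_inner, inner_conj_symm,
      sub_self]
  have e1 : ‖ι (M (I1_co ι x)) + (x - ι (I1_co ι x))‖ ^ 2 =
      ‖M (I1_co ι x)‖ ^ 2 + ‖x - ι (I1_co ι x)‖ ^ 2 := by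
    rw [@norm_add_sq ℂ, horth, ι.norm_map]
    simp
  have e2 : ‖x‖ ^ 2 = ‖I1_co ι x‖ ^ 2 + ‖x - ι (I1_co ι x)‖ ^ 2 := by
    have : x = ι (I1_co ι x) + (x - ι (I1_co ι x)) := by abel
    conv_lhs => rw [this]
    rw [@norm_add_sq ℂ, horth, ι.norm_map]
    simp
  have h3 : ‖M (I1_co ι x)‖ ≤ ‖I1_co ι x‖ := by
    calc ‖M (I1_co ι x)‖ ≤ ‖M‖ * ‖I1_co ι x‖ := M.le_opNorm _
      _ ≤ 1 * ‖I1_co ι x‖ := by gcongr
      _ = _ := one_mul _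
  have h4 : ‖M (I1_co ι x)‖ ^ 2 ≤ ‖I1_co ι x‖ ^ 2 := by gcongr
  refine le_of_sq_le_sq ?_ (norm_nonneg _)
  rw [e1, e2]
  linarith

end ext

end Pool.Agent.helper32.CK
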